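import Mathlib
import Pool.Agent.W192.CM.Parts

/-! # Project CM (helper192), CMW-AFE, part 1 (helper212): sums over the ring -/

set_option autoImplicit false

open Complex Filter Topology Set

namespace Pool.Agent.W212.CMA

open Pool.Agent.W192.CM

variable {R : Subring ℂ} {ω : ℂ}

theorem chi_norm {κ : R} [Finite (Aq R κ)] (χ : MulChar (Aq R κ) ℂ) (x : Aq R κ) : ‖χ x‖ ≤ 1 := by
  by_cases hx : IsUnit x
  · obtain ⟨y, rfl⟩ := hx
    have h1 : (χ (y : Aq R κ)) ^ (Nat.card (Aq R κ)ˣ) = 1 := by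
      rw [← map_pow, ← Units.val_pow_eq_pow_val, pow_card_eq_one', Units.val_one, map_one]
    exact (Complex.norm_eq_one_of_pow_eq_one h1 Nat.card_pos.ne').le
  · rw [MulChar.map_nonunit χ hx, norm_zero]
    exact zero_le_one

theorem ev_norm {κ : R} [Finite (Aq R κ)] (χ : MulChar (Aq R κ) ℂ) (α : R) : ‖ev χ α‖ ≤ 1 :=
  chi_norm χ _

theorem norm_ev {κ a : R} [Finite (Aq R κ)] (χ : MulChar (Aq R κ) ℂ) (h : IsCoprime a κ) :
    ‖ev χ a‖ = 1 := by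
  obtain ⟨u, v, huv⟩ := h
  have hu : IsUnit (Ideal.Quotient.mk (Ideal.span {κ}) a : Aq R κ) := by
    refine IsUnit.of_mul_eq_one (Ideal.Quotient.mk (Ideal.span {κ}) u) ?_
    rw [← map_mul, ← map_one (Ideal.Quotient.mk (Ideal.span {κ})), Ideal.Quotient.eq,
      Ideal.mem_span_singleton]
    exact ⟨-v, by linear_combination huv⟩
  obtain ⟨w, hw⟩ := hu
  have hc : Nat.card (Aq R κ)ˣ ≠ 0 := Nat.card_pos.ne'
  refine Complex.norm_eq_one_of_pow_eq_one (n := Nat.card (Aq R κ)ˣ) ?_ hc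
  unfold ev
  rw [← hw, ← map_pow, ← Units.val_pow_eq_pow_val, pow_card_eq_one', Units.val_one, map_one]

/-- coordinates -/
theorem coords (hR : CMRing R ω) : ∃ X : R → (Fin 2 → ℤ), Function.Injective X ∧
    ∀ α : R, (α : ℂ) = (X α 0 : ℂ) * ω + X α 1 := by
  have h : ∀ α : R, ∃ v : Fin 2 → ℤ, (α : ℂ) = (v 0 : ℂ) * ω + v 1 := by
    intro α
    obtain ⟨x, y, h⟩ := (hR.mem α).1 α.2
    exact ⟨![y, x], by rw [h]; simp; ring⟩
  choose X hX using h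
  refine ⟨X, fun a b hab => ?_, hX⟩
  apply Subtype.ext
  rw [hX a, hX b, hab]

/-- summability of the powers -/
theorem summ_pow (hR : CMRing R ω) {k : ℝ} (hk : 2 < k) :
    Summable (fun α : R => ‖(α : ℂ)‖ ^ (-k)) := by
  obtain ⟨X, hi, hX⟩ := coords hR
  let z : UpperHalfPlane := ⟨ω, hR.im⟩
  have h1 : Summable (fun α : R => EisensteinSeries.r z ^ (-k) * ‖X α‖ ^ (-k)) :=
    ((EisensteinSeries.summable_one_div_norm_rpow hk).comp_injective hi).mul_left _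
  refine h1.of_nonneg_of_le (fun _ => by positivity) (fun α => ?_)
  have := EisensteinSeries.summand_bound z (by linarith : 0 ≤ k) (X α)
  rwa [show (((X α 0 : ℤ) : ℂ) * (z : ℂ) + ((X α 1 : ℤ) : ℂ)) = (α : ℂ) from (hX α).symm] at this

theorem exp_bd (j : ℕ) {c : ℝ} (hc : 0 < c) : ∃ C : ℝ, 0 < C ∧ ∀ t : ℝ, 0 < t →
    t ^ (2 * j + 1) * Real.exp (-(c * t ^ 2)) ≤ C * t ^ (-(3 : ℝ)) := by
  refine ⟨((j + 2).factorial : ℝ) / c ^ (j + 2), by positivity, fun t ht => ?_⟩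
  have h1 := Real.pow_div_factorial_le_exp (c * t ^ 2) (by positivity) (j + 2)
  have h2 : Real.exp (-(c * t ^ 2)) ≤ ((j + 2).factorial : ℝ) / (c * t ^ 2) ^ (j + 2) := by
    rw [Real.exp_neg, ← one_div, div_le_div_iff₀ (Real.exp_pos _) (by positivity), one_mul]
    rw [div_le_iff₀ (by positivity)] at h1
    linarith
  have h3 : t ^ (-(3 : ℝ)) = (t ^ 3)⁻¹ := by
    rw [Real.rpow_neg ht.le]
    norm_num
  rw [h3]
  calc t ^ (2 * j + 1) * Real.exp (-(c * t ^ 2))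
      ≤ t ^ (2 * j + 1) * (((j + 2).factorial : ℝ) / (c * t ^ 2) ^ (j + 2)) :=
        mul_le_mul_of_nonneg_left h2 (by positivity)
    _ = ((j + 2).factorial : ℝ) / c ^ (j + 2) * (t ^ 3)⁻¹ := by
        rw [mul_pow, ← pow_mul]
        have : t ^ (2 * (j + 2)) = t ^ (2 * j + 1) * t ^ 3 := by
          rw [← pow_add]
          congr 1
        rw [this]
        field_simp

/-- summability with a rapidly decreasing factor -/
theorem summ_f (hR : CMRing R ω) (N : R → ℕ) (hN : ∀ α : R, Complex.normSq (α : ℂ) = N α)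
    (j : ℕ) (f : R → ℂ) (hf : ∀ α : R, ‖f α‖ ≤ ‖(α : ℂ)‖ ^ (2 * j + 1)) (g : ℕ → ℂ) {A c : ℝ}
    (hc : 0 < c) (hg : ∀ n : ℕ, 1 ≤ n → ‖g n‖ ≤ A * Real.exp (-(c * n))) :
    Summable (fun α : R => f α * g (N α)) := by
  obtain ⟨C, hC, hb⟩ := exp_bd j hc
  have h1 : Summable (fun α : R => |A| * C * ‖(α : ℂ)‖ ^ (-(3 : ℝ))) :=
    (summ_pow hR (by norm_num)).mul_left _
  refine Summable.of_norm_bounded h1 (fun α => ?_)
  rcases eq_or_ne α 0 with rfl | h0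
  · have h2 := hf 0
    rw [Subring.coe_zero, norm_zero, zero_pow (by omega)] at h2
    have h3 : ‖f 0‖ = 0 := le_antisymm h2 (norm_nonneg _)
    rw [norm_mul, h3, zero_mul]
    positivity
  · have h0' : (α : ℂ) ≠ 0 := fun h => h0 (Subtype.ext h)
    have ht : 0 < ‖(α : ℂ)‖ := norm_pos_iff.2 h0'
    have hNt : (N α : ℝ) = ‖(α : ℂ)‖ ^ 2 := by rw [← hN, Complex.normSq_eq_norm_sq]
    have hN1 : 1 ≤ N α := by
      have : (0 : ℝ) < N α := by rw [hNt]; positivity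
      exact_mod_cast this
    have h2 := hg (N α) hN1
    rw [hNt] at h2
    rw [norm_mul]
    calc ‖f α‖ * ‖g (N α)‖ ≤ ‖(α : ℂ)‖ ^ (2 * j + 1) * (|A| * Real.exp (-(c * ‖(α : ℂ)‖ ^ 2))) := by
          refine mul_le_mul (hf α) (h2.trans ?_) (norm_nonneg _) (by positivity)
          exact mul_le_mul_of_nonneg_right (le_abs_self A) (Real.exp_pos _).le
      _ = |A| * (‖(α : ℂ)‖ ^ (2 * j + 1) * Real.exp (-(c * ‖(α : ℂ)‖ ^ 2))) := by ring
      _ ≤ |A| * (C * ‖(α : ℂ)‖ ^ (-(3 : ℝ))) :=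
          mul_le_mul_of_nonneg_left (hb _ ht) (abs_nonneg _)
      _ = |A| * C * ‖(α : ℂ)‖ ^ (-(3 : ℝ)) := by ring

/-- sums over the fibres of the norm -/
theorem fib {N : R → ℕ} {f : R → ℂ} (g : ℕ → ℂ) (h : Summable (fun α => f α * g (N α))) :
    ∑' α : R, f α * g (N α) = ∑' n : ℕ, (∑' α : N ⁻¹' {n}, f α) * g n := by
  have h1 := h.hasSum.tsum_fiberwise N
  rw [← h1.tsum_eq]
  refine tsum_congr fun n => ?_
  rw [← tsum_mul_right]
  refine tsum_congr fun α => ?_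
  rw [show N α = n from α.2]

/-- the fibres are finite -/
theorem fin_fib (h2 : C_LAT) (hR : CMRing R ω) (N : R → ℕ)
    (hN : ∀ α : R, Complex.normSq (α : ℂ) = N α) : ∃ C : ℝ, 0 < C ∧ ∀ n : ℕ,
    (N ⁻¹' {n}).Finite ∧ ((N ⁻¹' {n}).ncard : ℝ) ≤ C * (1 + n) := by
  obtain ⟨C, hC, h⟩ := h2 R ω hR
  refine ⟨C, hC, fun n => ?_⟩
  obtain ⟨h3, h4⟩ := h 1 one_ne_zero 0 n (Nat.cast_nonneg n)
  have hsub : N ⁻¹' {n} ⊆ {α : R | Complex.normSq (α : ℂ) ≤ n ∧ (1 : R) ∣ α - 0} := by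
    intro α hα
    have : N α = n := hα
    exact ⟨by rw [hN, this], one_dvd _⟩
  refine ⟨h3.subset hsub, ?_⟩
  have h5 := Set.ncard_le_ncard hsub h3
  have h6 : ((N ⁻¹' {n}).ncard : ℝ) ≤
      ({α : R | Complex.normSq (α : ℂ) ≤ n ∧ (1 : R) ∣ α - 0}.ncard : ℝ) := by exact_mod_cast h5
  refine h6.trans (h4.trans (le_of_eq ?_))
  simp

/-- the sum over a fibre as a finite sum -/
theorem fib_fin {N : R → ℕ} {n : ℕ} (hf : (N ⁻¹' {n}).Finite) {E : Type} [AddCommMonoid E]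
    [TopologicalSpace E] [T2Space E] (f : R → E) :
    ∑' α : N ⁻¹' {n}, f α = ∑ α ∈ hf.toFinset, f α := by
  classical
  rw [tsum_subtype (N ⁻¹' {n}) f, tsum_eq_sum (s := hf.toFinset)]
  · refine Finset.sum_congr rfl fun α hα => ?_
    rw [Set.indicator_of_mem (hf.mem_toFinset.1 hα)]
  · intro α hα
    rw [Set.indicator_of_notMem (fun h => hα (hf.mem_toFinset.2 h))]

/-- conversion of powers -/
theorem cpow_norm {α : ℂ} (h0 : α ≠ 0) {n : ℕ} (hn : Complex.normSq α = n) (s : ℂ) :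
    ((‖α‖ : ℝ) : ℂ) ^ (-2 * s) = (n : ℂ) ^ (-s) := by
  have ht : 0 < ‖α‖ := norm_pos_iff.2 h0
  have h1 : (n : ℂ) = ((‖α‖ ^ 2 : ℝ) : ℂ) := by
    rw [← Complex.normSq_eq_norm_sq, hn]
    simp
  have h2 : ((‖α‖ : ℝ) : ℂ) ≠ 0 := by exact_mod_cast ht.ne'
  have h3 : ((‖α‖ ^ 2 : ℝ) : ℂ) ≠ 0 := by exact_mod_cast (pow_pos ht 2).ne'
  rw [h1, Complex.cpow_def_of_ne_zero h2, Complex.cpow_def_of_ne_zero h3, ← Complex.ofReal_log ht.le,
    ← Complex.ofReal_log (pow_pos ht 2).le, Real.log_pow]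
  congr 1
  push_cast
  ring

end Pool.Agent.W212.CMA
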