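import Pool.Agent.W192.CM.Parts2
import Pool.Agent.W45.CYK.AFE
import Pool.Agent.W311.CM.Gauss
import Pool.Agent.W212.CMA.Base

/-! # Project CM (helper192), CMW-AFE (helper212): continuation and central value -/

set_option autoImplicit false

open Complex Filter Topology Set

namespace Pool.Agent.W212.CMA

open Pool.Agent.W192.CM
open Pool.Agent.W192.CY (VW Vk)
open Pool.Agent.W45.CYK (mellinK vk_bound)

theorem Wn_ne (h4 : C_GAUSS) {R : Subring ℂ} {ω : ℂ} (hR : CMRing R ω) {φ κ : R}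
    [Finite (Aq R φ)] [Finite (Aq R κ)] {m : ℕ} {ε : MulChar (Aq R φ) ℂ}
    {χ : MulChar (Aq R κ) ℂ} (hd : Datn m ε χ) : Wn ω m ε χ ≠ 0 := by
  have hφ : (φ : ℂ) ≠ 0 := fun h => hd.ne (Subtype.ext h)
  have hκ : (κ : ℂ) ≠ 0 := fun h => hd.ne' (Subtype.ext h)
  have g1 := (h4 R ω hR φ hd.ne ε hd.prim).1
  have g2 := (h4 R ω hR κ hd.ne' χ hd.prim').1
  have n1 : gs ω φ ε ≠ 0 := by
    intro h
    rw [h, norm_zero] at g1
    exact (norm_pos_iff.2 hφ).ne g1
  have n2 : gs ω κ χ ≠ 0 := by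
    intro h
    rw [h, norm_zero] at g2
    exact (norm_pos_iff.2 hκ).ne g2
  have e1 : ev ε κ ≠ 0 := by
    intro h
    have := norm_ev ε hd.cop.symm
    rw [h, norm_zero] at this
    exact zero_ne_one this
  have e2 : ev χ φ ≠ 0 := by
    intro h
    have := norm_ev χ hd.cop
    rw [h, norm_zero] at this
    exact zero_ne_one this
  have m1 : ((‖(φ : ℂ)‖ : ℝ) : ℂ) ≠ 0 := by exact_mod_cast (norm_pos_iff.2 hφ).ne'
  have m2 : ((‖(κ : ℂ)‖ : ℝ) : ℂ) ≠ 0 := by exact_mod_cast (norm_pos_iff.2 hκ).ne'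
  unfold Wn
  refine mul_ne_zero (mul_ne_zero ?_ ?_) ?_
  · exact div_ne_zero (mul_ne_zero (pow_ne_zero _ hφ) n1) (pow_ne_zero _ m1)
  · exact div_ne_zero (mul_ne_zero e1 (pow_ne_zero _ hκ)) (pow_ne_zero _ m2)
  · exact div_ne_zero (mul_ne_zero e2 n2) m2

theorem d_afe (h1 : C_BASIC) (h2 : C_LAT) (h3 : D_THETA) : D_AFE := by
  intro R ω hR φ κ _ _ m ε χ hd
  have hW := Wn_ne (Pool.Agent.W311.CM.c_gauss h1) hR hd
  obtain ⟨j, rfl⟩ : ∃ j, m = j + 1 := ⟨m - 1, by have := hd.one; omega⟩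
  have hexp : 2 * (j + 1) - 1 = 2 * j + 1 := by omega
  obtain ⟨hB1, -⟩ := h1 R ω hR
  choose N hN using hB1
  obtain ⟨C, hC, hfib⟩ := fin_fib h2 hR N hN
  have hNt : ∀ α : R, (N α : ℝ) = ‖(α : ℂ)‖ ^ 2 := by
    intro α
    rw [← hN, Complex.normSq_eq_norm_sq]
  have hN1 : ∀ α : R, (α : ℂ) ≠ 0 → 1 ≤ N α := by
    intro α h0
    have : (0 : ℝ) < N α := by
      rw [hNt]
      have := norm_pos_iff.2 h0
      positivity
    exact_mod_cast this
  have hω := hR.im
  have hφ : (φ : ℂ) ≠ 0 := fun h => hd.ne (Subtype.ext h)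
  have hκ : (κ : ℂ) ≠ 0 := fun h => hd.ne' (Subtype.ext h)
  have hpi := Real.pi_pos
  have hnφ : 0 < ‖(φ : ℂ) * (κ : ℂ)‖ := norm_pos_iff.2 (mul_ne_zero hφ hκ)
  set f : R → ℂ := fun α => ev ε α * ev χ α * (α : ℂ) ^ (2 * (j + 1) - 1) with hf
  have hfn : ∀ α, ‖f α‖ ≤ ‖(α : ℂ)‖ ^ (2 * j + 1) := by
    intro α
    rw [hf]
    dsimp only
    rw [norm_mul, norm_mul, norm_pow, hexp]
    calc ‖ev ε α‖ * ‖ev χ α‖ * ‖(α : ℂ)‖ ^ (2 * j + 1) ≤ 1 * 1 * ‖(α : ℂ)‖ ^ (2 * j + 1) := by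
          have a1 := ev_norm ε α
          have a2 := ev_norm χ α
          gcongr
      _ = _ := by ring
  have hf0 : ∀ α : R, (α : ℂ) = 0 → f α = 0 := by
    intro α h0
    rw [hf]
    dsimp only
    rw [h0, hexp, zero_pow (by omega), mul_zero]
  have hcn : ∀ α, ‖(starRingEnd ℂ) (f α)‖ ≤ ‖(α : ℂ)‖ ^ (2 * j + 1) := by
    intro α
    rw [RCLike.norm_conj]
    exact hfn α
  set b : ℕ → ℂ := fun n => ∑' α : N ⁻¹' {n}, f α with hb
  have hbf : ∀ n, b n = ∑ α ∈ (hfib n).1.toFinset, f α := fun n => fib_fin (hfib n).1 f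
  have hbc : ∀ n, ∑' α : N ⁻¹' {n}, (starRingEnd ℂ) (f α) = (starRingEnd ℂ) (b n) := by
    intro n
    rw [hbf, fib_fin (hfib n).1 (fun α => (starRingEnd ℂ) (f α)), map_sum]
  have hb0 : b 0 = 0 := by
    rw [hbf]
    refine Finset.sum_eq_zero fun α hα => hf0 α ?_
    have h4 : N α = 0 := (hfib 0).1.mem_toFinset.1 hα
    have h5 := hNt α
    rw [h4, Nat.cast_zero] at h5
    exact norm_eq_zero.1 (pow_eq_zero_iff (two_ne_zero)|>.1 h5.symm)
  have hbn : ∀ n : ℕ, 1 ≤ n → ‖b n‖ ≤ (2 * C) * (n : ℝ) ^ ((j : ℝ) + 3 / 2) := by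
    intro n hn
    have hn0 : (0 : ℝ) < n := by exact_mod_cast hn
    have hn1 : (1 : ℝ) ≤ n := by exact_mod_cast hn
    have h4 : ∀ α ∈ (hfib n).1.toFinset, ‖f α‖ ≤ (n : ℝ) ^ ((j : ℝ) + 1 / 2) := by
      intro α hα
      have h5 : N α = n := (hfib n).1.mem_toFinset.1 hα
      refine (hfn α).trans (le_of_eq ?_)
      have h6 : ‖(α : ℂ)‖ = (n : ℝ) ^ (1 / 2 : ℝ) := by
        rw [← Real.sqrt_eq_rpow, ← h5, hNt, Real.sqrt_sq (norm_nonneg _)]
      rw [h6, ← Real.rpow_natCast, ← Real.rpow_mul hn0.le]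
      congr 1
      push_cast
      ring
    rw [hbf]
    refine (norm_sum_le _ _).trans ((Finset.sum_le_sum h4).trans ?_)
    rw [Finset.sum_const, nsmul_eq_mul, ← Set.ncard_eq_toFinset_card (N ⁻¹' {n}) (hfib n).1]
    have h7 := (hfib n).2
    calc ((N ⁻¹' {n}).ncard : ℝ) * (n : ℝ) ^ ((j : ℝ) + 1 / 2)
        ≤ (C * (1 + n)) * (n : ℝ) ^ ((j : ℝ) + 1 / 2) :=
          mul_le_mul_of_nonneg_right h7 (by positivity)
      _ ≤ (2 * C * n) * (n : ℝ) ^ ((j : ℝ) + 1 / 2) := by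
          refine mul_le_mul_of_nonneg_right ?_ (by positivity)
          nlinarith
      _ = (2 * C) * (n : ℝ) ^ ((j : ℝ) + 3 / 2) := by
          rw [show (j : ℝ) + 3 / 2 = 1 + (j + 1 / 2) by ring, Real.rpow_add hn0 1 ((j : ℝ) + 1 / 2),
            Real.rpow_one]
          ring
  -- the theta function
  set Rp : ℝ := 2 * ω.im * ‖(φ : ℂ) * (κ : ℂ)‖ with hRp
  have hRp0 : 0 < Rp := by positivity
  have hfe : ∀ t : ℝ, 0 < t → ∑' n : ℕ, b n * (Real.exp (-(2 * Real.pi * n / Rp) / t) : ℂ) =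
      Wn ω (j + 1) ε χ * (t : ℂ) ^ (2 * ((j + 1 : ℕ) : ℤ)) * ∑' n : ℕ, (starRingEnd ℂ) (b n) *
        (Real.exp (-(2 * Real.pi * n / Rp) * t) : ℂ) := by
    intro t ht
    have hth := h3 R ω hR φ κ (j + 1) ε χ hd t ht
    have s1 := summ_f hR N hN j f hfn (fun n : ℕ => (Real.exp (-(2 * Real.pi * n / Rp) / t) : ℂ))
      (A := 1) (c := 2 * Real.pi / Rp / t) (by positivity) (by
        intro n _
        rw [Complex.norm_real, Real.norm_eq_abs, Real.abs_exp, one_mul]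
        refine le_of_eq ?_
        congr 1
        ring)
    have s2 := summ_f hR N hN j (fun α => (starRingEnd ℂ) (f α)) hcn
      (fun n : ℕ => (Real.exp (-(2 * Real.pi * n / Rp) * t) : ℂ))
      (A := 1) (c := 2 * Real.pi / Rp * t) (by positivity) (by
        intro n _
        rw [Complex.norm_real, Real.norm_eq_abs, Real.abs_exp, one_mul]
        refine le_of_eq ?_
        congr 1
        ring)
    have e1 := fib (N := N) (f := f)
      (fun n : ℕ => (Real.exp (-(2 * Real.pi * n / Rp) / t) : ℂ)) s1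
    have e2 := fib (N := N) (f := fun α => (starRingEnd ℂ) (f α))
      (fun n : ℕ => (Real.exp (-(2 * Real.pi * n / Rp) * t) : ℂ)) s2
    simp only [hbc] at e2
    rw [show (2 * ((j + 1 : ℕ) : ℤ)) = ((2 * (j + 1) : ℕ) : ℤ) by push_cast; ring, zpow_natCast]
    rw [← e2]
    refine (e1.symm.trans ?_).trans (hth.trans ?_)
    · refine tsum_congr fun α => ?_
      rw [hN α]
    · congr 1
      refine tsum_congr fun α => ?_
      rw [hN α]
  obtain ⟨F, hFd, hFs, hFc⟩ := mellinK (b := b) (m := (j : ℝ) + 3 / 2) (C := 2 * C) (R := Rp)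
    (r := j + 1) (by omega) hRp0 hb0 (by positivity) hbn hW hfe
  -- extension of the series
  set a : ℕ → ℂ := fun n => b n * (n : ℂ) ^ (-((j : ℂ) + 1 / 2)) with ha
  have han : ∀ (s : ℂ) (n : ℕ), a n * (n : ℂ) ^ (-s) = b n * (n : ℂ) ^ (-(s + ((j : ℂ) + 1 / 2))) := by
    intro s n
    rw [ha]
    dsimp only
    rcases Nat.eq_zero_or_pos n with rfl | hn
    · rw [hb0]
      ring
    · have hn' : (n : ℂ) ≠ 0 := by exact_mod_cast hn.ne'
      rw [mul_assoc, ← Complex.cpow_add _ _ hn']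
      congr 2
      ring
  have hFe : ∀ s : ℂ, 1 < s.re → F s = ∑' n : ℕ, a n * (n : ℂ) ^ (-s) := by
    refine fun s hs => W388.ext_series F hFd a (by rw [ha]; simp [hb0]) ?_ ((j : ℝ) + 3 / 2 + 2)
      (fun s hs => ?_) s hs
    · intro s hs
      have k1 := ((summ_pow hR (k := 2 * s.re) (by linarith)).hasSum.tsum_fiberwise N).summable
      refine k1.of_nonneg_of_le (fun n => norm_nonneg _) (fun n => ?_)
      rw [han]
      rcases Nat.eq_zero_or_pos n with rfl | hn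
      · rw [hb0, zero_mul, norm_zero]
        exact tsum_nonneg fun α => by positivity
      · have hn0 : (0 : ℝ) < n := by exact_mod_cast hn
        rw [fib_fin (hfib n).1 (fun α : R => ‖(α : ℂ)‖ ^ (-(2 * s.re))), hbf, norm_mul]
        have h5 : ‖(n : ℂ) ^ (-(s + ((j : ℂ) + 1 / 2)))‖ = (n : ℝ) ^ (-(s.re + (j + 1 / 2))) := by
          rw [Complex.norm_natCast_cpow_of_pos hn]
          congr 1
          simp
        rw [h5]
        refine (mul_le_mul_of_nonneg_right (norm_sum_le _ _) (by positivity)).trans ?_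
        rw [Finset.sum_mul]
        refine Finset.sum_le_sum fun α hα => ?_
        have h6 : N α = n := (hfib n).1.mem_toFinset.1 hα
        have h7 : (n : ℝ) = ‖(α : ℂ)‖ ^ 2 := by rw [← h6, hNt]
        have h8 : 0 < ‖(α : ℂ)‖ := by
          rcases (norm_nonneg (α : ℂ)).eq_or_lt with h | h
          · rw [← h] at h7
            norm_num at h7
            omega
          · exact h
        calc ‖f α‖ * (n : ℝ) ^ (-(s.re + (j + 1 / 2)))
            ≤ ‖(α : ℂ)‖ ^ (2 * j + 1) * (n : ℝ) ^ (-(s.re + (j + 1 / 2))) :=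
              mul_le_mul_of_nonneg_right (hfn α) (by positivity)
          _ = ‖(α : ℂ)‖ ^ (-(2 * s.re)) := by
              rw [h7, ← Real.rpow_natCast, ← Real.rpow_natCast, ← Real.rpow_mul h8.le,
                ← Real.rpow_add h8]
              congr 1
              push_cast
              ring
    · rw [hFs s hs]
      refine tsum_congr fun n => ?_
      rw [han]
      congr 3
      push_cast
      ring
  -- norm of the terms
  have hsum : ∀ s : ℂ, ((j + 1 : ℕ) : ℝ) + 1 / 2 < s.re →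
      Summable (fun α : R => ‖(α : ℂ) ^ (2 * (j + 1) - 1) * ((‖(α : ℂ)‖ : ℝ) : ℂ) ^ (-2 * s)‖) := by
    intro s hs
    push_cast at hs
    refine (summ_pow hR (k := 2 * s.re - (2 * j + 1)) (by linarith)).congr fun α => ?_
    rw [norm_mul, norm_pow, hexp]
    rcases eq_or_ne (α : ℂ) 0 with h0 | h0
    · rw [h0, norm_zero, zero_pow (by omega), zero_mul, Real.zero_rpow (by linarith)]
    · have ht : 0 < ‖(α : ℂ)‖ := norm_pos_iff.2 h0
      rw [Complex.norm_cpow_eq_rpow_re_of_pos ht, ← Real.rpow_natCast, ← Real.rpow_add ht]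
      congr 1
      simp
      ring
  refine ⟨fun s => (1 / (nu R : ℂ)) * F (s - ((j : ℂ) + 1 / 2)), ?_, ?_, ?_⟩
  · exact (hFd.comp (differentiable_id.sub_const _)).const_mul _
  · intro s hs
    refine ⟨hsum s hs, ?_⟩
    dsimp only
    congr 1
    have hs' : 1 < (s - ((j : ℂ) + 1 / 2)).re := by
      push_cast at hs
      simp
      linarith
    rw [hFe _ hs']
    have e3 : ∀ n : ℕ, a n * (n : ℂ) ^ (-(s - ((j : ℂ) + 1 / 2))) = b n * (n : ℂ) ^ (-s) := by
      intro n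
      rw [han]
      congr 3
      ring
    simp only [e3]
    have e5 : ∀ α : R, f α * ((N α : ℕ) : ℂ) ^ (-s) =
        ev ε α * ev χ α * (α : ℂ) ^ (2 * (j + 1) - 1) * ((‖(α : ℂ)‖ : ℝ) : ℂ) ^ (-2 * s) := by
      intro α
      rcases eq_or_ne (α : ℂ) 0 with h0 | h0
      · rw [hf0 α h0, h0, hexp, zero_pow (by omega)]
        ring
      · rw [cpow_norm h0 (hN α) s]
    have e4 := fib (N := N) (f := f) (fun n : ℕ => (n : ℂ) ^ (-s)) (by
      refine Summable.of_norm_bounded (hsum s hs) (fun α => ?_)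
      rw [e5 α, mul_assoc, norm_mul, norm_mul]
      calc ‖ev ε α‖ * ‖ev χ α‖ * ‖(α : ℂ) ^ (2 * (j + 1) - 1) * ((‖(α : ℂ)‖ : ℝ) : ℂ) ^ (-2 * s)‖
          ≤ 1 * 1 * ‖(α : ℂ) ^ (2 * (j + 1) - 1) * ((‖(α : ℂ)‖ : ℝ) : ℂ) ^ (-2 * s)‖ := by
            have a1 := ev_norm ε α
            have a2 := ev_norm χ α
            gcongr
        _ = _ := by ring)
    rw [← e4]
    exact tsum_congr e5
  · intro X Y hX hY hXY
    dsimp only
    congr 1
    rw [show (((j + 1 : ℕ) : ℂ) - ((j : ℂ) + 1 / 2)) = 1 / 2 by push_cast; ring]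
    have hXY' : X * Y = Rp ^ 2 / (4 * Real.pi ^ 2) := by
      rw [hXY, hRp, norm_mul, Complex.normSq_eq_norm_sq, Complex.normSq_eq_norm_sq]
      field_simp
      ring
    rw [hFc X Y hX hY hXY']
    have hV : ∀ (g : R → ℂ), (∀ α, ‖g α‖ ≤ ‖(α : ℂ)‖ ^ (2 * j + 1)) → ∀ Z : ℝ, 0 < Z →
        ∑' n : ℕ, (∑' α : N ⁻¹' {n}, g α) / (n : ℂ) ^ (j + 1) * (Vk (j + 1) (n / Z) : ℂ) =
        ∑' α : R, g α / (Complex.normSq (α : ℂ) : ℂ) ^ (j + 1) *
          (Vk (j + 1) (Complex.normSq (α : ℂ) / Z) : ℂ) := by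
      intro g hg Z hZ
      have s3 := summ_f hR N hN j g hg
        (fun n : ℕ => 1 / (n : ℂ) ^ (j + 1) * (Vk (j + 1) (n / Z) : ℂ))
        (A := 2 ^ (j + 1)) (c := 1 / (2 * Z)) (by positivity) (by
          intro n hn
          have hn1 : (1 : ℝ) ≤ n := by exact_mod_cast hn
          rw [norm_mul, norm_div, norm_one, norm_pow, Complex.norm_natCast, Complex.norm_real,
            Real.norm_eq_abs]
          have q1 := vk_bound (j + 1) (n / Z) (by positivity)
          have q2 : 1 / (n : ℝ) ^ (j + 1) ≤ 1 := by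
            rw [div_le_one (by positivity)]
            exact one_le_pow₀ hn1
          calc 1 / (n : ℝ) ^ (j + 1) * |Vk (j + 1) (n / Z)|
              ≤ 1 * (2 ^ (j + 1) * Real.exp (-(n / Z / 2))) :=
                mul_le_mul q2 q1 (abs_nonneg _) zero_le_one
            _ = 2 ^ (j + 1) * Real.exp (-(1 / (2 * Z) * n)) := by
                rw [one_mul]
                congr 2
                field_simp)
      have e6 := fib (N := N) (f := g)
        (fun n : ℕ => 1 / (n : ℂ) ^ (j + 1) * (Vk (j + 1) (n / Z) : ℂ)) s3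
      refine Eq.trans ?_ (e6.symm.trans ?_)
      · refine tsum_congr fun n => ?_
        ring
      · refine tsum_congr fun α => ?_
        rw [hN α]
        push_cast
        ring
    have v1 := hV f hfn X hX
    have v2 := hV (fun α => (starRingEnd ℂ) (f α)) hcn Y hY
    simp only [hbc] at v2
    rw [show (∑' n : ℕ, b n / (n : ℂ) ^ (j + 1) * (Vk (j + 1) (n / X) : ℂ)) = _ from v1, v2]
    have hpow : ∀ z w : ℂ, z / w ^ (j + 1) = z / w ^ (j + 1 - 1) / w := by
      intro z w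
      rw [Nat.add_sub_cancel, div_div, pow_succ]
    congr 1
    · refine tsum_congr fun α => ?_
      rw [hpow, hf]
      dsimp only
      congr 2
      ring
    · congr 1
      refine tsum_congr fun α => ?_
      rw [hpow, hf]
      dsimp only
      congr 2
      rw [map_mul, map_mul, map_mul, map_div₀, map_mul, map_pow _ ((Complex.normSq (α : ℂ) : ℝ) : ℂ),
        Complex.conj_ofReal]
      ring

end Pool.Agent.W212.CMA
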